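import Mathlib
import Pool.Agent.Helper77.K3.DefsII

/-!
# Kleinian affine structures in dimension three: the module `T1b`
-/

set_option autoImplicit false

open Set Filter Topology

namespace Pool.Agent.Helper72.K3.T1b

open Pool.Agent.Helper77.K3

/-- Two independent homomorphisms: the image meets the quadrants. -/
theorem quadrant {G : Type} [AddGroup G] (c l : G →+ ℝ) (x y : G)
    (h : c x * l y - l x * c y ≠ 0) (s : ℝ) (hs : s = 1 ∨ s = -1) : ∃ z, 0 < s * c z ∧ 0 < l z := by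
  set M : ℝ := |c x| + |c y| + |l x| + |l y| + 1 with hM
  set a : ℝ := (s * M * l y - M * c y) / (c x * l y - l x * c y) with ha
  set b : ℝ := (M * c x - s * M * l x) / (c x * l y - l x * c y) with hb
  have h1 : a * c x + b * c y = s * M := by
    rw [ha, hb, div_mul_eq_mul_div, div_mul_eq_mul_div, ← add_div, div_eq_iff h]
    ring
  have h2 : a * l x + b * l y = M := by
    rw [ha, hb, div_mul_eq_mul_div, div_mul_eq_mul_div, ← add_div, div_eq_iff h]
    ring
  have hss : s * s = 1 := by rcases hs with h | h <;> rw [h] <;> norm_num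
  have habs : |s| = 1 := by rcases hs with h | h <;> rw [h] <;> norm_num
  have hfa : |Int.fract a| ≤ 1 := by
    rw [abs_of_nonneg (Int.fract_nonneg a)]
    exact (Int.fract_lt_one a).le
  have hfb : |Int.fract b| ≤ 1 := by
    rw [abs_of_nonneg (Int.fract_nonneg b)]
    exact (Int.fract_lt_one b).le
  have hea : (⌊a⌋ : ℝ) = a - Int.fract a := by
    have := Int.floor_add_fract a
    linarith
  have heb : (⌊b⌋ : ℝ) = b - Int.fract b := by
    have := Int.floor_add_fract b
    linarith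
  refine ⟨⌊a⌋ • x + ⌊b⌋ • y, ?_, ?_⟩
  · rw [map_add, map_zsmul, map_zsmul, zsmul_eq_mul, zsmul_eq_mul, hea, heb]
    have h3 : s * ((a - Int.fract a) * c x + (b - Int.fract b) * c y)
        = M - (s * (Int.fract a * c x) + s * (Int.fract b * c y)) := by
      have : s * (a * c x + b * c y) = M := by rw [h1, ← mul_assoc, hss, one_mul]
      linear_combination this
    rw [h3]
    have h4 : |s * (Int.fract a * c x)| ≤ |c x| := by
      rw [abs_mul, abs_mul, habs, one_mul]
      exact mul_le_of_le_one_left (abs_nonneg _) hfa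
    have h5 : |s * (Int.fract b * c y)| ≤ |c y| := by
      rw [abs_mul, abs_mul, habs, one_mul]
      exact mul_le_of_le_one_left (abs_nonneg _) hfb
    have h6 := le_abs_self (s * (Int.fract a * c x))
    have h7 := le_abs_self (s * (Int.fract b * c y))
    have h8 := abs_nonneg (l x)
    have h9 := abs_nonneg (l y)
    linarith
  · rw [map_add, map_zsmul, map_zsmul, zsmul_eq_mul, zsmul_eq_mul, hea, heb]
    have h3 : (a - Int.fract a) * l x + (b - Int.fract b) * l y
        = M - (Int.fract a * l x + Int.fract b * l y) := by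
      linear_combination h2
    rw [h3]
    have h4 : |Int.fract a * l x| ≤ |l x| := by
      rw [abs_mul]
      exact mul_le_of_le_one_left (abs_nonneg _) hfa
    have h5 : |Int.fract b * l y| ≤ |l y| := by
      rw [abs_mul]
      exact mul_le_of_le_one_left (abs_nonneg _) hfb
    have h6 := le_abs_self (Int.fract a * l x)
    have h7 := le_abs_self (Int.fract b * l y)
    have h8 := abs_nonneg (c x)
    have h9 := abs_nonneg (c y)
    linarith

/-- If the kernel of `c` is in the kernel of `l` and they are not proportional then the image of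
`c` is dense. -/
theorem dense_image {G : Type} [AddGroup G] (c l : G →+ ℝ) (hker : ∀ x, c x = 0 → l x = 0)
    (hnp : ¬ ∃ κ : ℝ, ∀ x, l x = κ * c x) (a b : ℝ) (hab : a < b) :
    ∃ x, a < c x ∧ c x < b := by
  rcases AddSubgroup.dense_or_cyclic c.range with hd | ⟨c₀, hc₀⟩
  · obtain ⟨r, hr, hr2⟩ := hd.exists_mem_open isOpen_Ioo (nonempty_Ioo.mpr hab)
    obtain ⟨x, hx⟩ := hr
    exact ⟨x, by rw [hx]; exact hr2.1, by rw [hx]; exact hr2.2⟩
  · exfalso
    apply hnp
    have h0 : c₀ ∈ c.range := by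
      rw [hc₀]
      exact AddSubgroup.mem_closure_singleton_self c₀
    obtain ⟨x₀, hx₀⟩ := h0
    have hall : ∀ x, ∃ n : ℤ, c x = n * c₀ ∧ l x = n * l x₀ := by
      intro x
      have h1 : c x ∈ AddSubgroup.closure {c₀} := by
        rw [← hc₀]
        exact ⟨x, rfl⟩
      obtain ⟨n, hn⟩ := AddSubgroup.mem_closure_singleton.mp h1
      refine ⟨n, by rw [← hn, zsmul_eq_mul], ?_⟩
      have h2 : c (x - n • x₀) = 0 := by
        rw [map_sub, map_zsmul, hx₀, hn, sub_self]
      have h3 := hker _ h2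
      rw [map_sub, map_zsmul, zsmul_eq_mul] at h3
      linarith
    by_cases hz : c₀ = 0
    · refine ⟨0, fun x => ?_⟩
      rw [zero_mul]
      apply hker
      obtain ⟨n, hn, -⟩ := hall x
      rw [hn, hz, mul_zero]
    · refine ⟨l x₀ / c₀, fun x => ?_⟩
      obtain ⟨n, hn1, hn2⟩ := hall x
      rw [hn1, hn2]
      field_simp

theorem tri_unimodular (hleaf : S_leafW) (hplane : S_planeInv) (hTS : S_TS) (hcoord : S_coord) : S_T1b := by
  intro D hTri h22 hker hex
  obtain ⟨hact, hlmul, htmul, -, -, -, -, -, -, -⟩ := hcoord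
  -- the two homomorphisms
  have hcadd : ∀ a b : Additive D.Γ, tr (((a + b).toMul : D.Γ) : Aff3) 2
      = tr ((a.toMul : D.Γ) : Aff3) 2 + tr ((b.toMul : D.Γ) : Aff3) 2 := by
    intro a b
    have h1 := htmul ((a.toMul : D.Γ) : Aff3) ((b.toMul : D.Γ) : Aff3) 2
    obtain ⟨-, h20, h21, -⟩ := hTri _ (a.toMul).2
    rw [h20, h21, h22 _ (a.toMul).2] at h1
    rw [toMul_add, Subgroup.coe_mul, h1]
    ring
  have hladd : ∀ a b : Additive D.Γ, Real.log (lin (((a + b).toMul : D.Γ) : Aff3) 0 0)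
      = Real.log (lin ((a.toMul : D.Γ) : Aff3) 0 0)
        + Real.log (lin ((b.toMul : D.Γ) : Aff3) 0 0) := by
    intro a b
    have h1 := hlmul ((a.toMul : D.Γ) : Aff3) ((b.toMul : D.Γ) : Aff3) 0 0
    obtain ⟨-, -, -, ha, -⟩ := hTri _ (a.toMul).2
    obtain ⟨h10, h20, -, hb, -⟩ := hTri _ (b.toMul).2
    rw [h10, h20, mul_zero, mul_zero, add_zero, add_zero] at h1
    rw [toMul_add, Subgroup.coe_mul, h1, Real.log_mul ha.ne' hb.ne']
  let c : Additive D.Γ →+ ℝ := AddMonoidHom.mk' (fun a => tr ((a.toMul : D.Γ) : Aff3) 2) hcadd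
  let l : Additive D.Γ →+ ℝ :=
    AddMonoidHom.mk' (fun a => Real.log (lin ((a.toMul : D.Γ) : Aff3) 0 0)) hladd
  have hc : ∀ γ (hγ : γ ∈ D.Γ), c (Additive.ofMul ⟨γ, hγ⟩) = tr γ 2 := fun _ _ => rfl
  have hl : ∀ γ (hγ : γ ∈ D.Γ), l (Additive.ofMul ⟨γ, hγ⟩) = Real.log (lin γ 0 0) :=
    fun _ _ => rfl
  have hkercl : ∀ x, c x = 0 → l x = 0 := by
    intro x hx
    have h1 := hker _ (x.toMul).2 hx
    change Real.log (lin ((x.toMul : D.Γ) : Aff3) 0 0) = 0
    rw [h1, Real.log_one]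
  by_cases hprop : ∃ κ : ℝ, ∀ x, l x = κ * c x
  · obtain ⟨κ, hκ⟩ := hprop
    have hk : ∀ γ ∈ D.Γ, lin γ 0 0 = Real.exp (κ * tr γ 2) := by
      intro γ hγ
      have h1 := hκ (Additive.ofMul ⟨γ, hγ⟩)
      rw [hc, hl] at h1
      obtain ⟨-, -, -, h0, -⟩ := hTri γ hγ
      rw [← h1, Real.exp_log h0]
    have hk1 : ∀ γ ∈ D.Γ, lin γ 1 1 = Real.exp (-κ * tr γ 2) := by
      intro γ hγ
      obtain ⟨-, -, -, h0, -, -, h1⟩ := hTri γ hγ
      rw [h22 γ hγ, mul_one, hk γ hγ] at h1
      have h2 : Real.exp (κ * tr γ 2) * Real.exp (-κ * tr γ 2) = 1 := by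
        rw [← Real.exp_add]
        simp
      have h3 : Real.exp (κ * tr γ 2) ≠ 0 := (Real.exp_pos _).ne'
      exact mul_left_cancel₀ h3 (h1.trans h2.symm)
    have hz : ∀ γ ∈ D.Γ, ∀ x : E, γ x 2 = x 2 + tr γ 2 := by
      intro γ hγ x
      obtain ⟨-, h20, h21, -⟩ := hTri γ hγ
      rw [hact γ x 2, h20, h21, h22 γ hγ]
      ring
    have hlin : ∀ (γ : Aff3) (j : Fin 3) (i : Fin 3), γ.linear (e j) i = lin γ i j :=
      fun _ _ _ => rfl
    have he : ∀ i j : Fin 3, (e i : E) j = if j = i then 1 else 0 := by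
      intro i j
      rw [e, Pi.single_apply]
    -- first leaf
    have hx0 : ∀ x ∈ D.Ω, ∀ t : ℝ, x + t • e 0 ∈ D.Ω := by
      refine hleaf D ⊥ (e 0) (fun γ => lin γ 0 0) (fun x => Real.exp (κ * x 2)) ?_ ?_ ?_ ?_ ?_ ?_
      · intro x hx w hw
        rw [Submodule.mem_bot] at hw
        rwa [hw, add_zero]
      · intro γ hγ
        obtain ⟨h10, h20, -⟩ := hTri γ hγ
        rw [Submodule.mem_bot]
        funext i
        fin_cases i
        · simp [hlin, he]
        · simp [hlin, he, h10]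
        · simp [hlin, he, h20]
      · fun_prop
      · intro x
        exact Real.exp_pos _
      · intro γ hγ x
        rw [hz γ hγ x, abs_of_pos (hTri γ hγ).2.2.2.1, hk γ hγ, ← Real.exp_add]
        congr 1
        ring
      · intro x t
        simp [e]
    have hx1 : ∀ x ∈ D.Ω, ∀ t : ℝ, x + t • e 1 ∈ D.Ω := by
      refine hleaf D (Submodule.span ℝ {e 0}) (e 1) (fun γ => lin γ 1 1)
        (fun x => Real.exp (-κ * x 2)) ?_ ?_ ?_ ?_ ?_ ?_
      · intro x hx w hw
        obtain ⟨t, rfl⟩ := Submodule.mem_span_singleton.mp hw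
        exact hx0 x hx t
      · intro γ hγ
        obtain ⟨-, -, h21, -⟩ := hTri γ hγ
        rw [Submodule.mem_span_singleton]
        refine ⟨lin γ 0 1, ?_⟩
        funext i
        fin_cases i
        · simp [hlin, he]
        · simp [hlin, he]
        · simp [hlin, he, h21]
      · fun_prop
      · intro x
        exact Real.exp_pos _
      · intro γ hγ x
        rw [hz γ hγ x, abs_of_pos (hTri γ hγ).2.2.2.2.1, hk1 γ hγ, ← Real.exp_add]
        congr 1
        ring
      · intro x t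
        simp [e]
    refine hplane D (e 2) (by simp [e]) ?_
    intro x hx w hw
    have hw2 : w 2 = 0 := by simpa [e] using hw
    have h1 : x + w = x + w 0 • e 0 + w 1 • e 1 := by
      funext i
      fin_cases i <;> simp [e, hw2]
    rw [h1]
    exact hx1 _ (hx0 x hx _) _
  · -- not proportional: the two quadrants and density
    exfalso
    obtain ⟨γ₀, hγ₀, hne⟩ := hex
    have hl0 : l (Additive.ofMul ⟨γ₀, hγ₀⟩) ≠ 0 := by
      rw [hl]
      obtain ⟨-, -, -, h0, -⟩ := hTri γ₀ hγ₀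
      exact Real.log_ne_zero_of_pos_of_ne_one h0 hne
    have hc0 : c (Additive.ofMul ⟨γ₀, hγ₀⟩) ≠ 0 := fun h => hl0 (hkercl _ h)
    have hpair : ∃ x y, c x * l y - l x * c y ≠ 0 := by
      by_contra hcon
      push Not at hcon
      apply hprop
      refine ⟨l (Additive.ofMul ⟨γ₀, hγ₀⟩) / c (Additive.ofMul ⟨γ₀, hγ₀⟩), fun y => ?_⟩
      have := hcon (Additive.ofMul ⟨γ₀, hγ₀⟩) y
      field_simp
      linarith
    obtain ⟨x, y, hxy⟩ := hpair
    obtain ⟨z₁, hz₁, hz₁'⟩ := quadrant c l x y hxy 1 (Or.inl rfl)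
    obtain ⟨z₂, hz₂, hz₂'⟩ := quadrant c l x y hxy (-1) (Or.inr rfl)
    have hbig : ∀ z : Additive D.Γ, 0 < l z → 1 < lin ((z.toMul : D.Γ) : Aff3) 0 0 := by
      intro z hz
      have h0 := (hTri _ (z.toMul).2).2.2.2.1
      by_contra h1
      push Not at h1
      have h2 : Real.log (lin ((z.toMul : D.Γ) : Aff3) 0 0) ≤ 0 :=
        Real.log_nonpos h0.le h1
      exact absurd hz (not_lt.mpr h2)
    refine hTS D ((z₁.toMul : D.Γ) : Aff3) ((z₂.toMul : D.Γ) : Aff3) hTri (z₁.toMul).2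
      (z₂.toMul).2 (h22 _ (z₁.toMul).2) (h22 _ (z₂.toMul).2) (hbig z₁ hz₁') (hbig z₂ hz₂') ?_ ?_ ?_
    · have h1 : 0 < 1 * tr ((z₁.toMul : D.Γ) : Aff3) 2 := hz₁
      linarith
    · have h1 : 0 < -1 * tr ((z₂.toMul : D.Γ) : Aff3) 2 := hz₂
      linarith
    · intro a b hab
      obtain ⟨z, h1, h2⟩ := dense_image c l hkercl hprop a b hab
      exact ⟨_, (z.toMul).2, h22 _ (z.toMul).2, h1, h2⟩

end Pool.Agent.Helper72.K3.T1b
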