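import Mathlib
import Pool.Agent.Helper77.K3.DefsI

/-!
# Kleinian affine structures in dimension three: auxiliary lemmas for matrices
-/

set_option autoImplicit false

open Set Filter Topology Matrix

namespace Pool.Agent.Helper72.K3.aux1

open Pool.Agent.Helper77.K3

section FSlemmas

variable (F : FS)

theorem m_mul (f g : F.G) : F.m (f * g) = F.m f * F.m g := by
  simp [FS.m]

theorem m_one : F.m 1 = 1 := by
  simp [FS.m]

theorem det_m (f : F.G) : (F.m f).det = 1 := (F.ρ f).2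

theorem m_inv (f : F.G) : F.m f⁻¹ = (F.m f).adjugate := by
  simp [FS.m, Matrix.SpecialLinearGroup.coe_inv]

theorem m_inv_mul (f : F.G) : F.m f⁻¹ * F.m f = 1 := by
  rw [← m_mul, inv_mul_cancel, m_one]

theorem m_mul_inv (f : F.G) : F.m f * F.m f⁻¹ = 1 := by
  rw [← m_mul, mul_inv_cancel, m_one]

theorem m_pow (f : F.G) (n : ℕ) : F.m (f ^ n) = F.m f ^ n := by
  simp [FS.m]

theorem m_g_pow (n : ℕ) : F.m (F.g ^ n) = Matrix.diagonal fun i => F.ν i ^ n := by
  rw [m_pow]
  have h : F.m F.g = Matrix.diagonal F.ν := F.diag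
  rw [h, Matrix.diagonal_pow]
  rfl

theorem ν_pos (i : Fin 3) : 0 < F.ν i := by
  have h0 := F.pos
  have h1 := F.lt1
  have h2 := F.lt0
  fin_cases i
  · exact lt_trans (lt_trans h0 h1) h2
  · exact lt_trans h0 h1
  · exact h0

theorem ν_prod : F.ν 0 * F.ν 1 * F.ν 2 = 1 := by
  have h : F.m F.g = Matrix.diagonal F.ν := F.diag
  have h2 := det_m F F.g
  rw [h, Matrix.det_diagonal, Fin.prod_univ_three] at h2
  exact h2

theorem m_g_inv_pow (n : ℕ) : F.m ((F.g ^ n)⁻¹) = Matrix.diagonal fun i => (F.ν i ^ n)⁻¹ := by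
  have h1 : (Matrix.diagonal fun i => (F.ν i ^ n)⁻¹) * F.m (F.g ^ n) = 1 := by
    rw [m_g_pow, Matrix.diagonal_mul_diagonal]
    have h2 : (fun i => (F.ν i ^ n)⁻¹ * F.ν i ^ n) = fun _ => (1 : ℝ) := by
      funext i
      have := ν_pos F i
      field_simp
    rw [h2, Matrix.diagonal_one]
  calc F.m ((F.g ^ n)⁻¹)
      = ((Matrix.diagonal fun i => (F.ν i ^ n)⁻¹) * F.m (F.g ^ n)) * F.m ((F.g ^ n)⁻¹) := by
        rw [h1, one_mul]
    _ = _ := by rw [mul_assoc, m_mul_inv, mul_one]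

/-- General position for flag systems. -/
theorem genM (h : S_gen) {ι κ : Type} [Finite ι] [Finite κ] (a v : ι → E) (b w : κ → E)
    (ha : ∀ i, a i ≠ 0) (hv : ∀ i, v i ≠ 0) (hb : ∀ i, b i ≠ 0) (hw : ∀ i, w i ≠ 0) :
    ∃ f : F.G, (∀ i, a i ⬝ᵥ (F.m f *ᵥ v i) ≠ 0) ∧ (∀ i, b i ⬝ᵥ (F.m f⁻¹ *ᵥ w i) ≠ 0) := by
  let L : E → (E →ₗ[ℝ] ℝ) := fun a =>
    { toFun := fun x => a ⬝ᵥ x
      map_add' := fun x y => dotProduct_add a x y
      map_smul' := fun c x => dotProduct_smul c a x }
  have hL : ∀ a, a ≠ 0 → L a ≠ 0 := by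
    intro a ha h0
    apply ha
    funext i
    have h1 : L a (Pi.single i 1) = 0 := by rw [h0]; rfl
    have h2 : L a (Pi.single i 1) = a i := by
      change a ⬝ᵥ (Pi.single i 1) = a i
      rw [dotProduct_single, mul_one]
    rw [← h2, h1]
    rfl
  obtain ⟨f, hf1, hf2⟩ := h F.G E (linRep F.ρ) F.irr ι κ (fun i => L (a i)) v (fun i => L (b i)) w
    (fun i => hL _ (ha i)) hv (fun i => hL _ (hb i)) hw
  exact ⟨f, hf1, hf2⟩

end FSlemmas

/-! ## Rank one matrices -/

theorem adj_vecMulVec (x φ : E) : (vecMulVec x φ).adjugate = 0 := by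
  rw [Matrix.adjugate_fin_three]
  ext i j
  fin_cases i <;> fin_cases j <;> simp [vecMulVec_apply] <;> ring

theorem minors_of_adj (M : M3) (h : M.adjugate = 0) (i j k l : Fin 3) :
    M i j * M k l = M i l * M k j := by
  rw [Matrix.adjugate_fin_three] at h
  have h00 := congrFun (congrFun h 0) 0
  have h01 := congrFun (congrFun h 0) 1
  have h02 := congrFun (congrFun h 0) 2
  have h10 := congrFun (congrFun h 1) 0
  have h11 := congrFun (congrFun h 1) 1
  have h12 := congrFun (congrFun h 1) 2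
  have h20 := congrFun (congrFun h 2) 0
  have h21 := congrFun (congrFun h 2) 1
  have h22 := congrFun (congrFun h 2) 2
  simp at h00 h01 h02 h10 h11 h12 h20 h21 h22
  fin_cases i <;> fin_cases j <;> fin_cases k <;> fin_cases l <;> simp only [Fin.zero_eta,
    Fin.mk_one, Fin.reduceFinMk] <;> linarith

theorem rank_one_of_adj (M : M3) (h : M.adjugate = 0) (hM : M ≠ 0) :
    ∃ x φ : E, x ≠ 0 ∧ φ ≠ 0 ∧ M = vecMulVec x φ := by
  have h1 : ∃ k l, M k l ≠ 0 := by
    by_contra hc
    push Not at hc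
    exact hM (by ext i j; exact hc i j)
  obtain ⟨k, l, hkl⟩ := h1
  refine ⟨fun i => M i l, fun j => M k j / M k l, ?_, ?_, ?_⟩
  · intro h0
    exact hkl (congrFun h0 k)
  · intro h0
    have := congrFun h0 l
    simp only [Pi.zero_apply] at this
    rw [div_self hkl] at this
    exact one_ne_zero this
  · ext i j
    rw [vecMulVec_apply]
    have := minors_of_adj M h i j k l
    field_simp
    linarith

/-- If `adj M ≠ 0` then the image of `M` is not contained in a line. -/
theorem exists_functional (M : M3) (h : M.adjugate ≠ 0) (z : E) (hz : z ≠ 0) :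
    ∃ α : E, α ⬝ᵥ z = 0 ∧ α ᵥ* M ≠ 0 := by
  by_contra hc
  push Not at hc
  obtain ⟨k, hk⟩ : ∃ k, z k ≠ 0 := by
    by_contra hk
    push Not at hk
    exact hz (funext hk)
  apply h
  have hM : M = vecMulVec z (fun j => M k j / z k) := by
    ext i j
    rw [vecMulVec_apply]
    have h1 := hc (z k • Pi.single i 1 - z i • Pi.single k 1) (by
      rw [sub_dotProduct, smul_dotProduct, smul_dotProduct, single_one_dotProduct,
        single_one_dotProduct]
      simp only [smul_eq_mul]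
      ring)
    rw [sub_vecMul, smul_vecMul, smul_vecMul, single_one_vecMul, single_one_vecMul] at h1
    have h2 := congrFun h1 j
    simp at h2
    field_simp
    linarith
  rw [hM]
  exact adj_vecMulVec _ _

theorem subseq (R : ℝ) (A : ℕ → M3) (hA : ∀ n i j, |A n i j| ≤ R) :
    ∃ (B : M3) (k : ℕ → ℕ), StrictMono k ∧ Tendsto (fun n => A (k n)) atTop (𝓝 B) ∧
      ∀ i j, |B i j| ≤ R := by
  have hK : IsCompact (Set.univ.pi fun _ : Fin 3 => Set.univ.pi fun _ : Fin 3 => Set.Icc (-R) R) :=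
    isCompact_univ_pi fun _ => isCompact_univ_pi fun _ => isCompact_Icc
  have hmem : ∀ n, (fun i j => A n i j) ∈
      (Set.univ.pi fun _ : Fin 3 => Set.univ.pi fun _ : Fin 3 => Set.Icc (-R) R) := by
    intro n i _ j _
    exact abs_le.mp (hA n i j)
  obtain ⟨B, hB, k, hk, hlim⟩ := hK.tendsto_subseq hmem
  refine ⟨B, k, hk, hlim, fun i j => abs_le.mpr (hB i (Set.mem_univ i) j (Set.mem_univ j))⟩

theorem tendsto_entry {A : ℕ → M3} {B : M3} (h : Tendsto A atTop (𝓝 B)) (i j : Fin 3) :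
    Tendsto (fun n => A n i j) atTop (𝓝 (B i j)) := by
  have h1 := (tendsto_pi_nhds.mp h) i
  exact (tendsto_pi_nhds.mp h1) j

theorem tendsto_of_entry {A : ℕ → M3} {B : M3}
    (h : ∀ i j, Tendsto (fun n => A n i j) atTop (𝓝 (B i j))) : Tendsto A atTop (𝓝 B) :=
  tendsto_pi_nhds.mpr fun i => tendsto_pi_nhds.mpr fun j => h i j

/-! ## Exponential sums -/

theorem eval_sum {ι : Type} [Fintype ι] (r c : ι → ℝ) (h : ∀ n : ℕ, ∑ i, c i * r i ^ n = 0)
    (p : Polynomial ℝ) : ∑ i, c i * p.eval (r i) = 0 := by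
  simp_rw [Polynomial.eval_eq_sum_range, Finset.mul_sum]
  rw [Finset.sum_comm]
  refine Finset.sum_eq_zero fun n _ => ?_
  have : ∑ i, c i * (p.coeff n * r i ^ n) = p.coeff n * ∑ i, c i * r i ^ n := by
    rw [Finset.mul_sum]
    exact Finset.sum_congr rfl fun i _ => by ring
  rw [this, h n, mul_zero]

/-- Independence of exponentials. -/
theorem exp_indep {ι : Type} [Fintype ι] (r c : ι → ℝ) (h : ∀ n : ℕ, ∑ i, c i * r i ^ n = 0)
    (i₀ : ι) (hu : ∀ i, r i = r i₀ → i = i₀) : c i₀ = 0 := by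
  classical
  set p : Polynomial ℝ := ∏ i ∈ Finset.univ.erase i₀, (Polynomial.X - Polynomial.C (r i)) with hp
  have h1 := eval_sum r c h p
  rw [Finset.sum_eq_single i₀] at h1
  · rcases mul_eq_zero.mp h1 with h2 | h2
    · exact h2
    · exfalso
      rw [hp, Polynomial.eval_prod, Finset.prod_eq_zero_iff] at h2
      obtain ⟨i, hi, h3⟩ := h2
      simp only [Polynomial.eval_sub, Polynomial.eval_X, Polynomial.eval_C] at h3
      exact Finset.ne_of_mem_erase hi (hu i (by linarith))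
  · intro i _ hi
    have : p.eval (r i) = 0 := by
      rw [hp, Polynomial.eval_prod]
      exact Finset.prod_eq_zero (Finset.mem_erase.mpr ⟨hi, Finset.mem_univ i⟩) (by simp)
    rw [this, mul_zero]
  · intro hi
    exact absurd (Finset.mem_univ i₀) hi

end Pool.Agent.Helper72.K3.aux1
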