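import Mathlib
import Pool.Agent.Helper77.K3.Defs

/-!
# Kleinian affine structures in dimension three: finite index and conjugation (module `baseC`)
-/

set_option autoImplicit false

open Set Filter Topology

namespace Pool.Agent.Helper72.K3.baseC

open Pool.Agent.Helper77.K3

theorem FI : S_FI := by
  intro D Γ' hle hfi
  refine ⟨{ Γ := Γ'
            Ω := D.Ω
            isOpen := D.isOpen
            conn := D.conn
            inv := fun γ hγ => D.inv γ (hle hγ)
            det := fun γ hγ => D.det γ (hle hγ)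
            free := fun γ hγ => D.free γ (hle hγ)
            proper := ?_
            cocompact := ?_ }, rfl, rfl⟩
  · intro C hC hCc
    exact (D.proper C hC hCc).subset fun γ hγ => ⟨hle hγ.1, hγ.2⟩
  · obtain ⟨F, hF, hFc, hcov⟩ := D.cocompact
    have := hfi
    have : Finite (D.Γ ⧸ Γ'.subgroupOf D.Γ) := Subgroup.finite_quotient_of_finiteIndex
    let g : (D.Γ ⧸ Γ'.subgroupOf D.Γ) → Aff3 := fun q => ((q.out : D.Γ) : Aff3)⁻¹
    have hg : ∀ q, g q ∈ D.Γ := fun q => D.Γ.inv_mem (q.out).2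
    refine ⟨⋃ q, (fun x : E => g q x) '' F, ?_, ?_, ?_⟩
    · intro x hx
      simp only [mem_iUnion] at hx
      obtain ⟨q, k, hk, rfl⟩ := hx
      exact D.inv _ (hg q) _ (hF hk)
    · refine isCompact_iUnion fun q => hFc.image ?_
      exact (g q).continuous_of_finiteDimensional
    · intro x hx
      obtain ⟨γ, hγ, hk⟩ := hcov x hx
      set q : D.Γ ⧸ Γ'.subgroupOf D.Γ := QuotientGroup.mk (⟨γ, hγ⟩ : D.Γ) with hq
      refine ⟨g q * γ, ?_, ?_⟩
      · have h1 : (QuotientGroup.mk (q.out) : D.Γ ⧸ Γ'.subgroupOf D.Γ)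
            = QuotientGroup.mk (⟨γ, hγ⟩ : D.Γ) := by
          rw [QuotientGroup.out_eq']
        rw [QuotientGroup.eq] at h1
        exact h1
      · simp only [mem_iUnion]
        exact ⟨q, γ x, hk, rfl⟩

theorem conj : S_conj := by
  intro D φ
  have hcont : Continuous (φ : E → E) := φ.continuous_of_finiteDimensional
  have hcont' : Continuous (φ.symm : E → E) := φ.symm.continuous_of_finiteDimensional
  have hconj : ∀ (γ : Aff3) (x : E), (φ⁻¹ * γ * φ) x = φ.symm (γ (φ x)) := fun _ _ => rfl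
  refine ⟨{ Γ := D.Γ.comap (MulAut.conj φ⁻¹).toMonoidHom
            Ω := φ '' D.Ω
            isOpen := ?_
            conn := D.conn.image _ hcont.continuousOn
            inv := ?_
            det := ?_
            free := ?_
            proper := ?_
            cocompact := ?_ }, rfl, ?_⟩
  · have h1 : (φ '' D.Ω) = φ.symm ⁻¹' D.Ω := φ.toEquiv.image_eq_preimage_symm D.Ω
    rw [h1]
    exact D.isOpen.preimage hcont'
  · rintro γ hγ _ ⟨x, hx, rfl⟩
    simp only [Subgroup.mem_comap, MulEquiv.coe_toMonoidHom, MulAut.conj_apply, inv_inv] at hγ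
    refine ⟨(φ⁻¹ * γ * φ) x, D.inv _ hγ x hx, ?_⟩
    rw [hconj, AffineEquiv.apply_symm_apply]
  · intro γ hγ
    simp only [Subgroup.mem_comap, MulEquiv.coe_toMonoidHom, MulAut.conj_apply, inv_inv] at hγ
    have h1 := D.det _ hγ
    have h2 : ((φ⁻¹ * γ * φ).linear : E →ₗ[ℝ] E)
        = (φ.linear.symm : E →ₗ[ℝ] E) ∘ₗ (γ.linear : E →ₗ[ℝ] E) ∘ₗ
          (φ.linear.symm.symm : E →ₗ[ℝ] E) := by
      ext x
      rfl
    rw [h2, LinearMap.det_conj] at h1
    exact h1
  · rintro γ hγ _ ⟨x, hx, rfl⟩ hfix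
    simp only [Subgroup.mem_comap, MulEquiv.coe_toMonoidHom, MulAut.conj_apply, inv_inv] at hγ
    have h1 : (φ⁻¹ * γ * φ) x = x := by
      rw [hconj, hfix, AffineEquiv.symm_apply_apply]
    have h2 := D.free _ hγ x hx h1
    have h3 : γ = φ * (φ⁻¹ * γ * φ) * φ⁻¹ := by group
    rw [h3, h2]
    group
  · intro C hC hCc
    have hC0 : IsCompact (φ.symm '' C) := hCc.image hcont'
    have hC1 : φ.symm '' C ⊆ D.Ω := by
      rintro _ ⟨y, hy, rfl⟩
      obtain ⟨x, hx, rfl⟩ := hC hy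
      rwa [AffineEquiv.symm_apply_apply]
    refine ((D.proper _ hC1 hC0).image fun γ : Aff3 => φ * γ * φ⁻¹).subset ?_
    rintro γ ⟨hγ, y, ⟨z, hz, rfl⟩, hy⟩
    simp only [Subgroup.mem_comap, MulEquiv.coe_toMonoidHom, MulAut.conj_apply, inv_inv] at hγ
    refine ⟨φ⁻¹ * γ * φ, ⟨hγ, φ.symm (γ z), ⟨φ.symm z, ⟨z, hz, rfl⟩, ?_⟩, γ z, hy, rfl⟩, ?_⟩
    · rw [hconj, AffineEquiv.apply_symm_apply]
    · group
  · obtain ⟨F, hF, hFc, hcov⟩ := D.cocompact
    refine ⟨φ '' F, image_mono hF, hFc.image hcont, ?_⟩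
    rintro _ ⟨x, hx, rfl⟩
    obtain ⟨γ, hγ, hk⟩ := hcov x hx
    refine ⟨φ * γ * φ⁻¹, ?_, ?_⟩
    · simp only [Subgroup.mem_comap, MulEquiv.coe_toMonoidHom, MulAut.conj_apply, inv_inv]
      have h3 : φ⁻¹ * (φ * γ * φ⁻¹) * φ = γ := by group
      rwa [h3]
    · refine ⟨γ x, hk, ?_⟩
      change φ (γ x) = φ (γ (φ.symm (φ x)))
      rw [AffineEquiv.symm_apply_apply]
  · intro γ
    change (MulAut.conj φ⁻¹) γ ∈ D.Γ ↔ _
    simp only [MulAut.conj_apply, inv_inv]

end Pool.Agent.Helper72.K3.baseC
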