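import Mathlib
import Pool.Agent.Helper77.K3.Defs

/-!
# Kleinian affine structures in dimension three: leaf lemmas (module `baseD`)
-/

set_option autoImplicit false

open Set Filter Topology

namespace Pool.Agent.Helper72.K3.baseD

open Pool.Agent.Helper77.K3

/-- A compact subset of `Ω` has a uniform neighbourhood in `Ω`. -/
theorem exists_unif (D : KData) (F : Set E) (hF : F ⊆ D.Ω) (hFc : IsCompact F) :
    ∃ ε : ℝ, 0 < ε ∧ ∀ k ∈ F, ∀ v : E, ‖v‖ ≤ ε → k + v ∈ D.Ω := by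
  obtain ⟨δ, hδ, hsub⟩ := hFc.exists_cthickening_subset_open D.isOpen hF
  refine ⟨δ, hδ, fun k hk v hv => hsub ?_⟩
  refine Metric.mem_cthickening_of_dist_le (k + v) k δ F hk ?_
  simpa [dist_eq_norm] using hv

theorem inv_iff (D : KData) (γ : Aff3) (hγ : γ ∈ D.Γ) (x : E) (h : γ x ∈ D.Ω) : x ∈ D.Ω := by
  have := D.inv γ⁻¹ (D.Γ.inv_mem hγ) _ h
  have h2 : γ⁻¹ (γ x) = x := AffineEquiv.symm_apply_apply γ x
  rwa [h2] at this

theorem map_add (γ : Aff3) (x v : E) : γ (x + v) = γ x + γ.linear v := by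
  have := γ.map_vadd x v
  simp only [vadd_eq_add] at this
  rw [add_comm x v, this, add_comm]

theorem eq_univ_of_closed (D : KData) (h : closure D.Ω ⊆ D.Ω) : D.Ω = univ := by
  have hc : IsClosed D.Ω := closure_subset_iff_isClosed.mp h
  exact IsClopen.eq_univ ⟨hc, D.isOpen⟩ D.conn.nonempty

theorem PDall : S_PDall := by
  intro D hPD
  obtain ⟨F, hF, hFc, hcov⟩ := D.cocompact
  refine eq_univ_of_closed D fun y hy => ?_
  have hC : IsCompact (F ∪ Metric.closedBall y 1) := hFc.union (isCompact_closedBall y 1)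
  have hfin := hPD _ hC
  set S : Set Aff3 := {γ : Aff3 | γ ∈ D.Γ ∧
    ((γ '' (F ∪ Metric.closedBall y 1)) ∩ (F ∪ Metric.closedBall y 1)).Nonempty} with hS
  -- the part of `Ω` near `y` is in a compact subset of `Ω`
  have hcomp : IsCompact (⋃ γ ∈ S, (fun x : E => γ⁻¹ x) '' F) := by
    refine hfin.isCompact_biUnion fun γ _ => hFc.image ?_
    exact (γ⁻¹ : Aff3).continuous_of_finiteDimensional
  have hsub : (⋃ γ ∈ S, (fun x : E => γ⁻¹ x) '' F) ⊆ D.Ω := by
    intro x hx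
    simp only [mem_iUnion] at hx
    obtain ⟨γ, hγ, k, hk, rfl⟩ := hx
    exact D.inv γ⁻¹ (D.Γ.inv_mem hγ.1) _ (hF hk)
  have hin : D.Ω ∩ Metric.ball y 1 ⊆ ⋃ γ ∈ S, (fun x : E => γ⁻¹ x) '' F := by
    intro x hx
    obtain ⟨γ, hγ, hk⟩ := hcov x hx.1
    simp only [mem_iUnion]
    refine ⟨γ, ⟨hγ, γ x, ⟨x, Or.inr (Metric.ball_subset_closedBall hx.2), rfl⟩, Or.inl hk⟩,
      γ x, hk, ?_⟩
    exact AffineEquiv.symm_apply_apply γ x
  apply hsub
  have hy2 : y ∈ closure (D.Ω ∩ Metric.ball y 1) := by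
    rw [mem_closure_iff_nhds] at hy ⊢
    intro t ht
    obtain ⟨z, hz⟩ := hy (t ∩ Metric.ball y 1)
      (inter_mem ht (Metric.ball_mem_nhds y one_pos))
    exact ⟨z, hz.1.1, hz.2, hz.1.2⟩
  exact (closure_minimal hin hcomp.isClosed) hy2

theorem norm_linear_le (γ : Aff3) (R : ℝ) (hR : ∀ i j, |lin γ i j| ≤ R) (v : E) :
    ‖γ.linear v‖ ≤ 3 * R * ‖v‖ := by
  have hR0 : 0 ≤ R := le_trans (abs_nonneg _) (hR 0 0)
  rw [pi_norm_le_iff_of_nonneg (by positivity)]
  intro i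
  have hv : v = v 0 • e 0 + v 1 • e 1 + v 2 • e 2 := by
    funext j
    fin_cases j <;> simp [e]
  have h1 : γ.linear v i = v 0 * lin γ i 0 + v 1 * lin γ i 1 + v 2 * lin γ i 2 := by
    conv_lhs => rw [hv]
    simp [lin, map_smul]
  rw [h1, Real.norm_eq_abs]
  have h2 : ∀ j, |v j * lin γ i j| ≤ ‖v‖ * R := by
    intro j
    rw [abs_mul]
    exact mul_le_mul (norm_le_pi_norm v j) (hR i j) (abs_nonneg _) (norm_nonneg _)
  calc |v 0 * lin γ i 0 + v 1 * lin γ i 1 + v 2 * lin γ i 2|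
      ≤ |v 0 * lin γ i 0| + |v 1 * lin γ i 1| + |v 2 * lin γ i 2| := abs_add_three _ _ _
    _ ≤ ‖v‖ * R + ‖v‖ * R + ‖v‖ * R := by linarith [h2 0, h2 1, h2 2]
    _ = 3 * R * ‖v‖ := by ring

theorem bdd : S_bdd := by
  rintro D ⟨R, hR⟩
  obtain ⟨F, hF, hFc, hcov⟩ := D.cocompact
  obtain ⟨ε, hε, hball⟩ := exists_unif D F hF hFc
  have hR0 : 0 ≤ R := le_trans (abs_nonneg _) (hR 1 D.Γ.one_mem 0 0)
  refine eq_univ_of_closed D fun y hy => ?_
  have hr : 0 < ε / (3 * R + 1) := by positivity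
  rw [Metric.mem_closure_iff] at hy
  obtain ⟨x, hx, hxy⟩ := hy _ hr
  obtain ⟨γ, hγ, hk⟩ := hcov x hx
  refine inv_iff D γ hγ y ?_
  have h1 : y = x + (y - x) := by abel
  rw [h1, map_add]
  refine hball _ hk _ ?_
  refine le_trans (norm_linear_le γ R (hR γ hγ) _) ?_
  rw [dist_eq_norm] at hxy
  have h3 : 3 * R * ‖y - x‖ ≤ (3 * R + 1) * (ε / (3 * R + 1)) := by
    apply mul_le_mul (by linarith) hxy.le (norm_nonneg _) (by linarith)
  have h4 : (3 * R + 1) * (ε / (3 * R + 1)) = ε := by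
    field_simp
  linarith

/-- Iteration: a uniform step along a leaf gives the whole leaf. -/
theorem iterate (Ω : Set E) (u : E) (g : E → ℝ) (hg : ∀ x ∈ Ω, ∀ t : ℝ, g (x + t • u) = g x)
    (hpos : ∀ x ∈ Ω, 0 < g x)
    (h : ∀ x ∈ Ω, ∀ s : ℝ, |s| ≤ g x → x + s • u ∈ Ω) : ∀ x ∈ Ω, ∀ t : ℝ, x + t • u ∈ Ω := by
  intro x hx t
  obtain ⟨n, hn⟩ := exists_nat_ge (|t| / g x)
  have hgx := hpos x hx
  have hn' : |t| ≤ (n + 1 : ℝ) * g x := by
    rw [div_le_iff₀ hgx] at hn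
    nlinarith
  have key : ∀ m : ℕ, x + ((m : ℝ) * (t / (n + 1))) • u ∈ Ω := by
    intro m
    induction m with
    | zero => simpa using hx
    | succ m ih =>
      have h1 := h _ ih (t / (n + 1)) ?_
      · have h2 : x + ((m + 1 : ℕ) * (t / (n + 1))) • u
            = x + ((m : ℝ) * (t / (n + 1))) • u + (t / (n + 1)) • u := by
          rw [add_assoc, ← add_smul]
          congr 2
          push_cast
          ring
        rw [h2]
        exact h1
      · rw [hg x hx, abs_div, abs_of_pos (by positivity : (0 : ℝ) < n + 1),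
          div_le_iff₀ (by positivity)]
        linarith
  have h3 := key (n + 1)
  have h4 : ((n + 1 : ℕ) : ℝ) * (t / (n + 1)) = t := by
    push_cast
    field_simp
  rwa [h4] at h3

theorem leafW : S_leafW := by
  intro D U u χ f hU hu hfc hfpos hfγ hft
  obtain ⟨F, hF, hFc, hcov⟩ := D.cocompact
  obtain ⟨ε, hε, hball⟩ := exists_unif D F hF hFc
  obtain ⟨M, hM⟩ := hFc.bddAbove_image hfc.continuousOn
  set M' : ℝ := max M 1 * (‖u‖ + 1) with hM'
  have hM'0 : 0 < M' := by positivity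
  have hstep : ∀ x ∈ D.Ω, ∀ s : ℝ, |s| ≤ ε / M' * f x → x + s • u ∈ D.Ω := by
    intro x hx s hs
    obtain ⟨γ, hγ, hk⟩ := hcov x hx
    refine inv_iff D γ hγ _ ?_
    rw [map_add, map_smul]
    have h1 : γ x + s • γ.linear u
        = (γ x + (s * χ γ) • u) + s • (γ.linear u - χ γ • u) := by
      rw [smul_sub, smul_smul]; abel
    rw [h1]
    refine hU _ (hball _ hk _ ?_) _ (U.smul_mem _ (hu γ hγ))
    rw [norm_smul, Real.norm_eq_abs, abs_mul]
    have h2 : |s| * |χ γ| ≤ ε / M' * f (γ x) := by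
      rw [hfγ γ hγ x]
      calc |s| * |χ γ| ≤ (ε / M' * f x) * |χ γ| := by gcongr
        _ = ε / M' * (|χ γ| * f x) := by ring
    have h3 : f (γ x) ≤ max M 1 := le_trans (hM ⟨γ x, hk, rfl⟩) (le_max_left _ _)
    have h4 : ε / M' * f (γ x) ≤ ε / M' * max M 1 := by gcongr
    calc |s| * |χ γ| * ‖u‖ ≤ (ε / M' * max M 1) * (‖u‖ + 1) := by
          apply mul_le_mul (h2.trans h4) (by linarith) (norm_nonneg _) (by positivity)
      _ = ε := by
          rw [hM']; field_simp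
  refine iterate D.Ω u (fun x => ε / M' * f x) ?_ ?_ hstep
  · intro x _ t
    rw [hft]
  · intro x _
    have := hfpos x
    positivity

theorem leafB : S_leafB := by
  rintro D U u χ hU hu ⟨R, hR⟩
  obtain ⟨F, hF, hFc, hcov⟩ := D.cocompact
  obtain ⟨ε, hε, hball⟩ := exists_unif D F hF hFc
  have hR0 : 0 ≤ R := le_trans (abs_nonneg _) (hR 1 D.Γ.one_mem)
  set M' : ℝ := (R + 1) * (‖u‖ + 1) with hM'
  have hM'0 : 0 < M' := by positivity
  have hstep : ∀ x ∈ D.Ω, ∀ s : ℝ, |s| ≤ ε / M' → x + s • u ∈ D.Ω := by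
    intro x hx s hs
    obtain ⟨γ, hγ, hk⟩ := hcov x hx
    refine inv_iff D γ hγ _ ?_
    rw [map_add, map_smul]
    have h1 : γ x + s • γ.linear u
        = (γ x + (s * χ γ) • u) + s • (γ.linear u - χ γ • u) := by
      rw [smul_sub, smul_smul]; abel
    rw [h1]
    refine hU _ (hball _ hk _ ?_) _ (U.smul_mem _ (hu γ hγ))
    rw [norm_smul, Real.norm_eq_abs, abs_mul]
    have h2 : |s| * |χ γ| ≤ ε / M' * (R + 1) := by
      apply mul_le_mul hs ((hR γ hγ).trans (by linarith)) (abs_nonneg _) (by positivity)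
    calc |s| * |χ γ| * ‖u‖ ≤ (ε / M' * (R + 1)) * (‖u‖ + 1) := by
          apply mul_le_mul h2 (by linarith) (norm_nonneg _) (by positivity)
      _ = ε := by
          rw [hM']; field_simp
  refine iterate D.Ω u (fun _ => ε / M') ?_ ?_ hstep
  · intro x _ t
    rfl
  · intro x _
    positivity

theorem planeInv (h : S_F2) : S_planeInv := by
  intro D a ha hw
  refine eq_univ_of_forall fun y => ?_
  obtain ⟨x, hx, hxy⟩ := h D a (a 0 * y 0 + a 1 * y 1 + a 2 * y 2) ha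
  have h1 := hw x hx (y - x) (by
    simp only [Pi.sub_apply]
    linear_combination -hxy)
  have h2 : x + (y - x) = y := by abel
  rwa [h2] at h1

end Pool.Agent.Helper72.K3.baseD
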