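import Mathlib
import Pool.Agent.Helper77.K3.DefsI
import Pool.Agent.Helper72.K3.aux1

/-!
# Kleinian affine structures in dimension three: the identity is isolated (module `disc`)
-/

set_option autoImplicit false

open Set Filter Topology Matrix

namespace Pool.Agent.Helper72.K3.disc

open Pool.Agent.Helper77.K3 Pool.Agent.Helper72.K3.aux1

/-- The ratios of the eigenvalues are distinct. -/
theorem ratio_unique (F : FS) (i j : Fin 3) (hij : i ≠ j) (p : Fin 3 × Fin 3)
    (h : F.ν p.2 / F.ν p.1 = F.ν j / F.ν i) : p = (i, j) := by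
  have hp := ν_pos F
  have h0 := F.pos
  have h1 := F.lt1
  have h2 := F.lt0
  have h10 : 0 < F.ν 1 := hp 1
  have h00 : 0 < F.ν 0 := hp 0
  have hne : F.ν 1 * F.ν 1 ≠ F.ν 0 * F.ν 2 := by
    intro he
    apply F.ne1
    have h3 : F.ν 1 ^ 3 = 1 := by
      have := ν_prod F
      calc F.ν 1 ^ 3 = (F.ν 1 * F.ν 1) * F.ν 1 := by ring
        _ = (F.ν 0 * F.ν 2) * F.ν 1 := by rw [he]
        _ = F.ν 0 * F.ν 1 * F.ν 2 := by ring
        _ = 1 := this
    exact (pow_eq_one_iff_of_nonneg h10.le (by norm_num)).mp h3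
  rw [div_eq_div_iff (hp _).ne' (hp _).ne'] at h
  have a1 : F.ν 0 * F.ν 1 < F.ν 0 * F.ν 0 := mul_lt_mul_of_pos_left h2 h00
  have a2 : F.ν 0 * F.ν 2 < F.ν 0 * F.ν 1 := mul_lt_mul_of_pos_left h1 h00
  have a3 : F.ν 1 * F.ν 1 < F.ν 0 * F.ν 1 := mul_lt_mul_of_pos_right h2 h10
  have a4 : F.ν 1 * F.ν 2 < F.ν 0 * F.ν 2 := mul_lt_mul_of_pos_right h2 h0
  have a5 : F.ν 1 * F.ν 2 < F.ν 1 * F.ν 1 := mul_lt_mul_of_pos_left h1 h10
  have a6 : F.ν 2 * F.ν 2 < F.ν 1 * F.ν 2 := mul_lt_mul_of_pos_right h1 h0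
  obtain ⟨a, b⟩ := p
  simp only at h
  fin_cases i <;> fin_cases j <;> fin_cases a <;> fin_cases b <;>
    simp only [Fin.zero_eta, Fin.mk_one, Fin.reduceFinMk] at h hij ⊢ <;>
    first
    | rfl
    | (exfalso; exact hij rfl)
    | (exfalso; linarith)
    | (exfalso; apply hne; linarith)

/-- The entries of a product with diagonal matrices. -/
theorem sum_expand (P B Q : M3) (a b : Fin 3 → ℝ) :
    (P * Matrix.diagonal a * B * Matrix.diagonal b * Q) 0 2
      = ∑ p : Fin 3 × Fin 3, (P 0 p.1 * B p.1 p.2 * Q p.2 2) * (a p.1 * b p.2) := by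
  rw [Fintype.sum_prod_type]
  simp [Matrix.mul_apply, Matrix.diagonal_apply, Fin.sum_univ_three]
  ring

/-- If all conjugates of `A` have vanishing corner then all conjugates are diagonal. -/
theorem diag_of_corner (hgen : S_gen) (F : FS) (A : M3)
    (hA : ∀ h : F.G, (F.m h⁻¹ * A * F.m h) 0 2 = 0) (f : F.G) (i j : Fin 3) (hij : i ≠ j) :
    (F.m f⁻¹ * A * F.m f) i j = 0 := by
  have he : ∀ k : Fin 3, (e k : E) ≠ 0 := by
    intro k h0
    have := congrFun h0 k
    simp [e] at this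
  obtain ⟨f₂, h1, h2⟩ := genM F hgen (ι := Fin 3) (κ := Fin 3) (fun k => e k) (fun _ => e 2)
    (fun _ => e 0) (fun k => e k) he (fun _ => he 2) (fun _ => he 0) he
  have h1' : ∀ k, F.m f₂ k 2 ≠ 0 := by
    intro k
    have := h1 k
    simpa [e] using this
  have h2' : ∀ k, F.m f₂⁻¹ 0 k ≠ 0 := by
    intro k
    have := h2 k
    simpa [e] using this
  set B := F.m f⁻¹ * A * F.m f with hB
  have key : ∀ n : ℕ, ∑ p : Fin 3 × Fin 3, (F.m f₂⁻¹ 0 p.1 * B p.1 p.2 * F.m f₂ p.2 2) *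
      (F.ν p.2 / F.ν p.1) ^ n = 0 := by
    intro n
    have h3 := hA (f * F.g ^ n * f₂)
    have h4 : F.m (f * F.g ^ n * f₂)⁻¹ * A * F.m (f * F.g ^ n * f₂)
        = F.m f₂⁻¹ * (Matrix.diagonal fun i => (F.ν i ^ n)⁻¹) * B *
          (Matrix.diagonal fun i => F.ν i ^ n) * F.m f₂ := by
      rw [_root_.mul_inv_rev, _root_.mul_inv_rev, m_mul, m_mul, m_mul, m_mul, m_g_inv_pow, m_g_pow, hB]
      simp only [mul_assoc]
    rw [h4, sum_expand] at h3
    rw [← h3]
    refine Finset.sum_congr rfl fun p _ => ?_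
    rw [div_pow, div_eq_mul_inv, mul_comm (F.ν p.2 ^ n)]
  have h5 := exp_indep _ _ key (i, j) (fun p hp => ratio_unique F i j hij p hp)
  simp only at h5
  rcases mul_eq_zero.mp h5 with h6 | h6
  · rcases mul_eq_zero.mp h6 with h7 | h7
    · exact absurd h7 (h2' i)
    · exact h7
  · exact absurd h6 (h1' j)

theorem zero_of_corner (hgen : S_gen) (F : FS) (A : M3)
    (hA : ∀ h : F.G, (F.m h⁻¹ * A * F.m h) 0 2 = 0) (htr : A 0 0 + A 1 1 + A 2 2 = 0) :
    A = 0 := by
  have hd := diag_of_corner hgen F A hA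
  have hA1 : ∀ i j, i ≠ j → A i j = 0 := by
    intro i j hij
    have := hd 1 i j hij
    rwa [inv_one, m_one, one_mul, mul_one] at this
  have he : ∀ k : Fin 3, (e k : E) ≠ 0 := by
    intro k h0
    have := congrFun h0 k
    simp [e] at this
  obtain ⟨f, h1, -⟩ := genM F hgen (ι := Fin 3) (κ := Fin 0) (fun k => e k) (fun _ => e 0)
    (fun _ => e 0) (fun k => e 0) he (fun _ => he 0) (fun _ => he 0) (fun _ => he 0)
  have h1' : ∀ k, F.m f k 0 ≠ 0 := by
    intro k
    have := h1 k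
    simpa [e] using this
  set B := F.m f⁻¹ * A * F.m f with hB
  have h2 : A * F.m f = F.m f * B := by
    rw [hB, ← mul_assoc, ← mul_assoc, m_mul_inv, one_mul]
  have h3 : ∀ i, A i i = B 0 0 := by
    intro i
    have h4 := congrFun (congrFun h2 i) 0
    rw [Matrix.mul_apply, Matrix.mul_apply] at h4
    have h5 : ∑ k, A i k * F.m f k 0 = A i i * F.m f i 0 :=
      Finset.sum_eq_single i (fun k _ hk => by rw [hA1 i k (Ne.symm hk), zero_mul])
        (fun h => absurd (Finset.mem_univ i) h)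
    have hBd : ∀ k, k ≠ 0 → B k 0 = 0 := fun k hk => hd f k 0 hk
    have h6 : ∑ k, F.m f i k * B k 0 = F.m f i 0 * B 0 0 :=
      Finset.sum_eq_single 0 (fun k _ hk => by rw [hBd k hk, mul_zero])
        (fun h => absurd (Finset.mem_univ 0) h)
    rw [h5, h6, mul_comm (F.m f i 0)] at h4
    exact mul_right_cancel₀ (h1' i) h4
  have h7 : B 0 0 = 0 := by
    rw [h3 0, h3 1, h3 2] at htr
    linarith
  ext i j
  by_cases hij : i = j
  · rw [hij, h3 j, h7]
    rfl
  · rw [hA1 i j hij]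
    rfl

/-- The sum of the absolute values of the entries. -/
noncomputable def nm (M : M3) : ℝ := ∑ i, ∑ j, |M i j|

theorem entry_le_nm (M : M3) (i j : Fin 3) : |M i j| ≤ nm M := by
  calc |M i j| ≤ ∑ j', |M i j'| :=
        Finset.single_le_sum (f := fun j' => |M i j'|) (fun j' _ => abs_nonneg _)
          (Finset.mem_univ j)
    _ ≤ nm M := Finset.single_le_sum (f := fun i' => ∑ j', |M i' j'|)
        (fun i' _ => Finset.sum_nonneg fun j' _ => abs_nonneg _) (Finset.mem_univ i)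

theorem nm_pos (M : M3) (h : M ≠ 0) : 0 < nm M := by
  have h1 : ∃ k l, M k l ≠ 0 := by
    by_contra hc
    push Not at hc
    exact h (by ext i j; exact hc i j)
  obtain ⟨k, l, hkl⟩ := h1
  exact lt_of_lt_of_le (abs_pos.mpr hkl) (entry_le_nm M k l)

theorem nm_smul (c : ℝ) (M : M3) : nm (c • M) = |c| * nm M := by
  simp only [nm, Matrix.smul_apply, smul_eq_mul, abs_mul, Finset.mul_sum]

theorem nm_tendsto {A : ℕ → M3} {B : M3} (h : Tendsto A atTop (𝓝 B)) :
    Tendsto (fun n => nm (A n)) atTop (𝓝 (nm B)) := by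
  unfold nm
  refine tendsto_finsetSum _ fun i _ => tendsto_finsetSum _ fun j _ => ?_
  exact (tendsto_entry h i j).abs

theorem isolated (hgen : S_gen) : S_disc := by
  intro F
  by_contra hc
  push Not at hc
  choose f hf1 hf2 using fun n : ℕ => hc (1 / ((n : ℝ) + 1)) (by positivity)
  set t : ℕ → ℝ := fun n => nm (F.m (f n) - 1) with ht
  have htpos : ∀ n, 0 < t n := fun n => nm_pos _ (sub_ne_zero.mpr (hf2 n))
  have ht0 : Tendsto t atTop (𝓝 0) := by
    have h1 : Tendsto (fun n : ℕ => 9 * (1 / ((n : ℝ) + 1))) atTop (𝓝 0) := by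
      have := (tendsto_one_div_add_atTop_nhds_zero_nat (𝕜 := ℝ)).const_mul 9
      simpa using this
    refine squeeze_zero (fun n => (htpos n).le) (fun n => ?_) h1
    have h2 : ∀ i j, |(F.m (f n) - 1) i j| ≤ 1 / ((n : ℝ) + 1) := by
      intro i j
      have := (hf1 n i j).le
      rwa [Matrix.sub_apply]
    calc t n ≤ ∑ _i : Fin 3, ∑ _j : Fin 3, 1 / ((n : ℝ) + 1) :=
          Finset.sum_le_sum fun i _ => Finset.sum_le_sum fun j _ => h2 i j
      _ = 9 * (1 / ((n : ℝ) + 1)) := by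
          simp only [Finset.sum_const, Finset.card_univ, Fintype.card_fin, nsmul_eq_mul]
          push_cast
          ring
  set A : ℕ → M3 := fun n => (t n)⁻¹ • (F.m (f n) - 1) with hA
  have hA1 : ∀ n, nm (A n) = 1 := by
    intro n
    rw [hA]
    simp only
    rw [nm_smul, abs_of_pos (inv_pos.mpr (htpos n))]
    exact inv_mul_cancel₀ (htpos n).ne'
  have hA2 : ∀ n, F.m (f n) = 1 + t n • A n := by
    intro n
    rw [hA]
    simp only
    rw [smul_smul, mul_inv_cancel₀ (htpos n).ne', one_smul]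
    abel
  obtain ⟨A', k, hk, hlim, -⟩ := subseq 1 A (fun n i j => by
    rw [← hA1 n]; exact entry_le_nm _ _ _)
  have htk : Tendsto (fun n => t (k n)) atTop (𝓝 0) := ht0.comp hk.tendsto_atTop
  have hA'1 : nm A' = 1 := by
    have h1 := nm_tendsto hlim
    simp only [hA1] at h1
    exact (tendsto_nhds_unique tendsto_const_nhds h1).symm
  -- the trace is zero
  have htr : A' 0 0 + A' 1 1 + A' 2 2 = 0 := by
    have h1 : ∀ n, (A n 0 0 + A n 1 1 + A n 2 2) + t n * (A n 0 0 * A n 1 1 + A n 0 0 * A n 2 2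
        + A n 1 1 * A n 2 2 - A n 0 1 * A n 1 0 - A n 0 2 * A n 2 0 - A n 1 2 * A n 2 1)
        + t n ^ 2 * (A n).det = 0 := by
      intro n
      have h2 := det_m F (f n)
      rw [hA2 n, Matrix.det_fin_three] at h2
      simp only [Matrix.add_apply, Matrix.smul_apply, smul_eq_mul] at h2
      simp at h2
      have h3 : t n * ((A n 0 0 + A n 1 1 + A n 2 2) + t n * (A n 0 0 * A n 1 1
          + A n 0 0 * A n 2 2 + A n 1 1 * A n 2 2 - A n 0 1 * A n 1 0 - A n 0 2 * A n 2 0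
          - A n 1 2 * A n 2 1) + t n ^ 2 * (A n).det) = 0 := by
        rw [Matrix.det_fin_three]
        linear_combination h2
      exact (mul_eq_zero.mp h3).resolve_left (htpos n).ne'
    have e := fun i j => tendsto_entry hlim i j
    have hdet : Tendsto (fun n => (A (k n)).det) atTop (𝓝 A'.det) :=
      (Continuous.tendsto (Continuous.matrix_det continuous_id) A').comp hlim
    have h4 : Tendsto (fun n => (A (k n) 0 0 + A (k n) 1 1 + A (k n) 2 2) + t (k n) *
        (A (k n) 0 0 * A (k n) 1 1 + A (k n) 0 0 * A (k n) 2 2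
        + A (k n) 1 1 * A (k n) 2 2 - A (k n) 0 1 * A (k n) 1 0 - A (k n) 0 2 * A (k n) 2 0
        - A (k n) 1 2 * A (k n) 2 1) + t (k n) ^ 2 * (A (k n)).det) atTop
        (𝓝 ((A' 0 0 + A' 1 1 + A' 2 2) + 0 * (A' 0 0 * A' 1 1 + A' 0 0 * A' 2 2
        + A' 1 1 * A' 2 2 - A' 0 1 * A' 1 0 - A' 0 2 * A' 2 0 - A' 1 2 * A' 2 1)
        + 0 ^ 2 * A'.det)) :=
      ((((e 0 0).add (e 1 1)).add (e 2 2)).add (htk.mul (((((((e 0 0).mul (e 1 1)).add
        ((e 0 0).mul (e 2 2))).add ((e 1 1).mul (e 2 2))).sub ((e 0 1).mul (e 1 0))).sub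
        ((e 0 2).mul (e 2 0))).sub ((e 1 2).mul (e 2 1))))).add ((htk.pow 2).mul hdet)
    simp only [h1] at h4
    have h5 := tendsto_nhds_unique tendsto_const_nhds h4
    linarith
  -- the corners of the conjugates vanish
  have hcorner : ∀ h : F.G, (F.m h⁻¹ * A' * F.m h) 0 2 = 0 := by
    intro h
    set B : ℕ → M3 := fun n => F.m h⁻¹ * A n * F.m h with hB
    have hBlim : Tendsto (fun n => B (k n)) atTop (𝓝 (F.m h⁻¹ * A' * F.m h)) :=
      (hlim.const_mul (F.m h⁻¹)).mul_const (F.m h)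
    have h1 : ∀ n, 0 ≤ -(B n 0 2) ^ 2 + t n * (B n 0 2 * (B n 0 1 * B n 1 2
        - B n 0 2 * B n 1 1)) := by
      intro n
      have h2 : F.m (h⁻¹ * f n * h) = 1 + t n • B n := by
        rw [m_mul, m_mul, hA2 n, mul_add, add_mul, mul_one, m_inv_mul, hB]
        simp only [Matrix.mul_smul, Matrix.smul_mul]
      have h3 := F.NC (h⁻¹ * f n * h)
      change 0 ≤ F.m (h⁻¹ * f n * h) 0 2 * F.m (h⁻¹ * f n * h)⁻¹ 0 2 at h3
      rw [m_inv, h2, Matrix.adjugate_fin_three] at h3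
      simp [Matrix.add_apply, Matrix.smul_apply] at h3
      have h4 : t n ^ 2 * 0 ≤ t n ^ 2 * (-(B n 0 2) ^ 2 + t n * (B n 0 2 * (B n 0 1 * B n 1 2
        - B n 0 2 * B n 1 1))) := by
        rw [mul_zero]
        refine h3.trans (le_of_eq ?_)
        ring
      exact le_of_mul_le_mul_left h4 (by have := htpos n; positivity)
    have e := fun i j => tendsto_entry hBlim i j
    have h5 := ((e 0 2).pow 2).neg.add (htk.mul ((e 0 2).mul (((e 0 1).mul (e 1 2)).sub
      ((e 0 2).mul (e 1 1)))))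
    have h6 := ge_of_tendsto' h5 (fun n => h1 (k n))
    rw [zero_mul, add_zero] at h6
    have h7 : (F.m h⁻¹ * A' * F.m h) 0 2 ^ 2 ≤ 0 := by linarith
    exact pow_eq_zero_iff (two_ne_zero) |>.mp (le_antisymm h7 (sq_nonneg _))
  have hz := zero_of_corner hgen F A' hcorner htr
  rw [hz] at hA'1
  simp [nm] at hA'1

end Pool.Agent.Helper72.K3.disc
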