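import Mathlib
import Pool.Agent.Helper77.K3.DefsI
import Pool.Agent.Helper72.K3.aux1

/-!
# Kleinian affine structures in dimension three: limits have rank one (module `rank1`)
-/

set_option autoImplicit false

open Set Filter Topology Matrix

namespace Pool.Agent.Helper72.K3.rank1

open Pool.Agent.Helper77.K3 Pool.Agent.Helper72.K3.aux1

theorem prop : S_prop := by
  rintro F hinj ⟨ε, hε, hdisc⟩ R
  by_contra hinf
  have hinf' : {f : F.G | ∀ i j, |F.m f i j| ≤ R}.Infinite := hinf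
  let f := hinf'.natEmbedding
  have hf : ∀ n i j, |F.m (f n) i j| ≤ R := fun n => (f n).2
  have hfinj : ∀ a b, (f a : F.G) = f b → a = b := fun a b hab => f.injective (Subtype.ext hab)
  obtain ⟨B, k, hk, hlim, -⟩ := subseq R (fun n => F.m (f n)) hf
  have hdetB : B.det = 1 := by
    have h1 : Tendsto (fun n => (F.m (f (k n))).det) atTop (𝓝 B.det) :=
      (Continuous.tendsto (Continuous.matrix_det continuous_id) B).comp hlim
    have h2 : Tendsto (fun n => (F.m (f (k n))).det) atTop (𝓝 1) := by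
      simp only [det_m]
      exact tendsto_const_nhds
    exact tendsto_nhds_unique h1 h2
  have h1 : Tendsto (fun n => F.m ((f (k n) : F.G)⁻¹ * f (k (n + 1)))) atTop (𝓝 1) := by
    have h2 : ∀ n, F.m ((f (k n) : F.G)⁻¹ * f (k (n + 1)))
        = (F.m (f (k n))).adjugate * F.m (f (k (n + 1))) := by
      intro n
      rw [m_mul, m_inv]
    simp only [h2]
    have h3 : Tendsto (fun n => (F.m (f (k n))).adjugate) atTop (𝓝 B.adjugate) :=
      (Continuous.tendsto (Continuous.matrix_adjugate continuous_id) B).comp hlim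
    have h4 : Tendsto (fun n => F.m (f (k (n + 1)))) atTop (𝓝 B) :=
      hlim.comp (tendsto_add_atTop_nat 1)
    have h5 := h3.mul h4
    rwa [Matrix.adjugate_mul, hdetB, one_smul] at h5
  have h6 : ∀ᶠ n in atTop, ∀ i j, |F.m ((f (k n) : F.G)⁻¹ * f (k (n + 1))) i j - (1 : M3) i j| < ε := by
    rw [eventually_all]
    intro i
    rw [eventually_all]
    intro j
    have h7 := tendsto_entry h1 i j
    have h8 := (Metric.tendsto_nhds.mp h7) ε hε
    simpa [Real.dist_eq] using h8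
  obtain ⟨n, hn⟩ := h6.exists
  have h9 := hinj _ (hdisc _ hn)
  have h10 : (f (k n) : F.G) = f (k (n + 1)) := by
    have := congrArg (fun z => (f (k n) : F.G) * z) h9
    simpa using this.symm
  have h11 := hfinj _ _ h10
  exact absurd h11 (hk (Nat.lt_succ_self n)).ne

/-- Escaping sequences in a proper group: the normalising constants tend to infinity. -/
theorem c_large (F : FS) (hF : F.Proper) (f : ℕ → F.G) (c : ℕ → ℝ) (π : M3)
    (hf : Tendsto f atTop cofinite)
    (hlim : Tendsto (fun n => (c n)⁻¹ • F.m (f n)) atTop (𝓝 π)) (hπ : π ≠ 0) :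
    Tendsto (fun n => (c n)⁻¹) atTop (𝓝 0) ∧ ∀ᶠ n in atTop, c n ≠ 0 := by
  have hent : ∃ k l, π k l ≠ 0 := by
    by_contra hc
    push Not at hc
    exact hπ (by ext i j; exact hc i j)
  obtain ⟨k, l, hkl⟩ := hent
  have hne : ∀ᶠ n in atTop, c n ≠ 0 := by
    have h1 := tendsto_entry hlim k l
    have h2 := h1.eventually_ne hkl
    filter_upwards [h2] with n hn h0
    apply hn
    simp [h0]
  refine ⟨?_, hne⟩
  rw [Metric.tendsto_nhds]
  intro ε hε
  -- all entries of the normalised matrices are bounded by `M`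
  set M : ℝ := ∑ i, ∑ j, (|π i j| + 1) with hM
  have hMpos : 0 < M := by
    rw [hM]
    exact Finset.sum_pos (fun i _ => Finset.sum_pos (fun j _ => by positivity)
      Finset.univ_nonempty) Finset.univ_nonempty
  have hbd : ∀ᶠ n in atTop, ∀ i j, |((c n)⁻¹ • F.m (f n)) i j| ≤ M := by
    rw [eventually_all]
    intro i
    rw [eventually_all]
    intro j
    have h1 := (tendsto_entry hlim i j).abs
    have h2 : |π i j| < M := by
      rw [hM]
      calc |π i j| < |π i j| + 1 := by linarith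
        _ ≤ ∑ j', (|π i j'| + 1) :=
            Finset.single_le_sum (f := fun j' => |π i j'| + 1) (fun j' _ => by positivity)
              (Finset.mem_univ j)
        _ ≤ ∑ i', ∑ j', (|π i' j'| + 1) :=
            Finset.single_le_sum (f := fun i' => ∑ j', (|π i' j'| + 1))
              (fun i' _ => by positivity) (Finset.mem_univ i)
    filter_upwards [h1.eventually_lt_const h2] with n hn
    exact hn.le
  have hesc := hf.eventually (hF (M * ε⁻¹)).compl_mem_cofinite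
  filter_upwards [hbd, hesc, hne] with n h1 h2 h3
  rw [Real.dist_eq, sub_zero]
  by_contra h4
  push Not at h4
  apply h2
  intro i j
  have h5 := h1 i j
  rw [Matrix.smul_apply, smul_eq_mul, abs_mul] at h5
  have h6 : ε * |F.m (f n) i j| ≤ M :=
    (mul_le_mul_of_nonneg_right h4 (abs_nonneg _)).trans h5
  rw [← div_eq_mul_inv, le_div_iff₀ hε]
  linarith

theorem adj_tendsto (F : FS) (f : ℕ → F.G) (c : ℕ → ℝ) (π : M3)
    (hlim : Tendsto (fun n => (c n)⁻¹ • F.m (f n)) atTop (𝓝 π)) :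
    Tendsto (fun n => ((c n)⁻¹) ^ 2 • F.m (f n)⁻¹) atTop (𝓝 π.adjugate) := by
  have h1 := (Continuous.tendsto (Continuous.matrix_adjugate continuous_id) π).comp hlim
  refine h1.congr fun n => ?_
  simp only [Function.comp, id]
  rw [Matrix.adjugate_smul, Fintype.card_fin, m_inv]

theorem det_zero (F : FS) (hF : F.Proper) (f : ℕ → F.G) (c : ℕ → ℝ) (π : M3)
    (hf : Tendsto f atTop cofinite)
    (hlim : Tendsto (fun n => (c n)⁻¹ • F.m (f n)) atTop (𝓝 π)) (hπ : π ≠ 0) : π.det = 0 := by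
  obtain ⟨h0, -⟩ := c_large F hF f c π hf hlim hπ
  have h1 : Tendsto (fun n => ((c n)⁻¹ • F.m (f n)).det) atTop (𝓝 π.det) :=
    (Continuous.tendsto (Continuous.matrix_det continuous_id) π).comp hlim
  have h2 : Tendsto (fun n => ((c n)⁻¹ • F.m (f n)).det) atTop (𝓝 0) := by
    have h3 : ∀ n, ((c n)⁻¹ • F.m (f n)).det = ((c n)⁻¹) ^ 3 := by
      intro n
      rw [Matrix.det_smul, Fintype.card_fin, det_m, mul_one]
    simp only [h3]
    have h4 := h0.pow 3
    simpa using h4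
  exact tendsto_nhds_unique h1 h2

/-- Images of flags under a limit of rank two. -/
theorem image_flag (hflag : S_flag) (F : FS) (f : ℕ → F.G) (c : ℕ → ℝ) (π : M3) (y ψ : E)
    (hne : ∀ᶠ n in atTop, c n ≠ 0)
    (hlim : Tendsto (fun n => (c n)⁻¹ • F.m (f n)) atTop (𝓝 π))
    (hadj : π.adjugate = vecMulVec y ψ) (hψ : ψ ≠ 0)
    (p : E × E) (hp : p ∈ F.fl) (h1 : p.2 ⬝ᵥ y ≠ 0) (h2 : π *ᵥ p.1 ≠ 0) :
    ∃ s : ℝ, s ≠ 0 ∧ (π *ᵥ p.1, s • ψ) ∈ F.fl := by
  obtain ⟨-, hscale, hinv, -, -, hclosed, -⟩ := hflag F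
  have hadjlim := adj_tendsto F f c π hlim
  -- limits of the two components, up to the sign of `c n`
  have hx : Tendsto (fun n => ((c n)⁻¹ • F.m (f n)) *ᵥ p.1) atTop (𝓝 (π *ᵥ p.1)) :=
    ((Continuous.matrix_mulVec continuous_id continuous_const).tendsto π).comp hlim
  have hφ : Tendsto (fun n => p.2 ᵥ* (((c n)⁻¹) ^ 2 • F.m (f n)⁻¹)) atTop
      (𝓝 ((p.2 ⬝ᵥ y) • ψ)) := by
    have h3 := ((Continuous.matrix_vecMul (continuous_const (y := p.2))
      (continuous_id (X := M3))).tendsto π.adjugate).comp hadjlim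
    simp only [id] at h3
    have h4 : p.2 ᵥ* π.adjugate = (p.2 ⬝ᵥ y) • ψ := by
      rw [hadj, vecMul_vecMulVec]
    rw [h4] at h3
    exact h3
  -- frequently `0 < c n` or frequently `c n < 0`
  have hfreq : (∃ᶠ n in atTop, 0 < c n) ∨ (∃ᶠ n in atTop, c n < 0) := by
    by_contra hc
    push Not at hc
    obtain ⟨hc1, hc2⟩ := hc
    obtain ⟨n, hn1, hn2, hn3⟩ := (hc1.and (hc2.and hne)).exists
    exact hn3 (le_antisymm hn1 hn2)
  have hmain : ∀ σ : ℝ, (σ = 1 ∨ σ = -1) → (∃ᶠ n in atTop, 0 < σ * c n) →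
      (π *ᵥ p.1, (σ * (p.2 ⬝ᵥ y)) • ψ) ∈ F.fl := by
    intro σ hσ hfr
    have hσ0 : σ ≠ 0 := by rcases hσ with h | h <;> rw [h] <;> norm_num
    refine hclosed _ ?_ h2 ?_
    · refine mem_closure_of_frequently_of_tendsto (f := fun n =>
        (((c n)⁻¹ • F.m (f n)) *ᵥ p.1, σ • (p.2 ᵥ* (((c n)⁻¹) ^ 2 • F.m (f n)⁻¹))))
        (b := atTop) ?_ ?_
      · refine hfr.mono fun n hn => ?_
        have h5 := hscale _ (hinv p hp (f n)) (c n)⁻¹ (σ * ((c n)⁻¹) ^ 2) ?_
        · simp only [smul_mulVec, vecMul_smul, smul_smul] at h5 ⊢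
          exact h5
        · have h6 : c n ≠ 0 := by
            intro h0
            rw [h0, mul_zero] at hn
            exact lt_irrefl _ hn
          have h7 : (c n)⁻¹ * (σ * ((c n)⁻¹) ^ 2) = (σ * c n) * (((c n)⁻¹) ^ 2) ^ 2 := by
            field_simp
          rw [h7]
          positivity
      · rw [mul_smul]
        exact hx.prodMk_nhds (hφ.const_smul σ)
    · exact smul_ne_zero (mul_ne_zero hσ0 h1) hψ
  rcases hfreq with h | h
  · exact ⟨1 * (p.2 ⬝ᵥ y), by simpa using h1,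
      hmain 1 (Or.inl rfl) (by simpa using h)⟩
  · exact ⟨-1 * (p.2 ⬝ᵥ y), by simpa using h1, hmain (-1) (Or.inr rfl) (by simpa using h)⟩

theorem limits_rank1 (hgen : S_gen) (hflag : S_flag) (hflim : S_flim) (hC : S_lemC) : S_rank1 := by
  intro F hF f c π hf hlim hπ
  have hdet := det_zero F hF f c π hf hlim hπ
  obtain ⟨-, hne⟩ := c_large F hF f c π hf hlim hπ
  by_cases hadj : π.adjugate = 0
  · obtain ⟨x, φ, hx, hφ, hxφ⟩ := rank_one_of_adj π hadj hπ
    rw [hxφ] at hlim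
    obtain ⟨ψ, hψ⟩ := hflim F f c x φ hx hφ hlim
    exact ⟨x, φ, ψ, hx, hφ, hxφ, hψ⟩
  · exfalso
    have hadj2 : π.adjugate.adjugate = 0 := by
      rw [Matrix.adjugate_adjugate _ (by simp), hdet]
      simp
    obtain ⟨y, ψ, hy, hψ, hyψ⟩ := rank_one_of_adj _ hadj2 hadj
    obtain ⟨hbase, -, hinv, -⟩ := hflag F
    have he2 : (e 2 : E) ≠ 0 := by simp [e]
    have he0 : (e 0 : E) ≠ 0 := by simp [e]
    -- a flag with image outside a given finite set of lines
    have hstep : ∀ z : Fin 2 → E, (∀ i, z i ≠ 0) → ∃ p ∈ F.fl, p.2 ⬝ᵥ y ≠ 0 ∧ π *ᵥ p.1 ≠ 0 ∧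
        ∀ i, ∀ t : ℝ, π *ᵥ p.1 ≠ t • z i := by
      intro z hz
      choose α hα1 hα2 using fun i => exists_functional π hadj (z i) (hz i)
      obtain ⟨h, hh1, hh2⟩ := genM F hgen (ι := Fin 2) (κ := Unit) (fun i => α i ᵥ* π)
        (fun _ => e 2) (fun _ => e 0) (fun _ => y) hα2 (fun _ => he2) (fun _ => he0) (fun _ => hy)
      have h3 : ∀ i, α i ⬝ᵥ (π *ᵥ (F.m h *ᵥ e 2)) ≠ 0 := by
        intro i
        rw [dotProduct_mulVec]
        exact hh1 i
      refine ⟨(F.m h *ᵥ e 2, e 0 ᵥ* F.m h⁻¹), hinv _ hbase h, ?_, ?_, ?_⟩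
      · rw [← dotProduct_mulVec]
        exact hh2 ()
      · intro h0
        apply h3 0
        simp only at h0
        rw [h0, dotProduct_zero]
      · intro i t h0
        apply h3 i
        simp only at h0
        rw [h0, dotProduct_smul, hα1 i, smul_zero]
    obtain ⟨p₁, hp₁, h11, h12, -⟩ := hstep (fun _ => e 0) (fun _ => he0)
    obtain ⟨p₂, hp₂, h21, h22, h23⟩ := hstep (fun _ => π *ᵥ p₁.1) (fun _ => h12)
    obtain ⟨p₃, hp₃, h31, h32, h33⟩ := hstep ![π *ᵥ p₁.1, π *ᵥ p₂.1] (by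
      intro i
      fin_cases i
      · exact h12
      · exact h22)
    obtain ⟨s₁, hs₁, hf₁⟩ := image_flag hflag F f c π y ψ hne hlim hyψ hψ p₁ hp₁ h11 h12
    obtain ⟨s₂, hs₂, hf₂⟩ := image_flag hflag F f c π y ψ hne hlim hyψ hψ p₂ hp₂ h21 h22
    obtain ⟨s₃, hs₃, hf₃⟩ := image_flag hflag F f c π y ψ hne hlim hyψ hψ p₃ hp₃ h31 h32
    obtain ⟨i, j, hij, t, ht⟩ := hC F ![π *ᵥ p₁.1, π *ᵥ p₂.1, π *ᵥ p₃.1] ![s₁, s₂, s₃] ψ
      (by intro i; fin_cases i <;> assumption) (by intro i; fin_cases i <;> assumption)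
    have hlin : ∀ (a b : E) (t : ℝ), a ≠ 0 → a = t • b → b = t⁻¹ • a := by
      intro a b t ha hab
      have ht0 : t ≠ 0 := by
        intro h0
        apply ha
        rw [hab, h0, zero_smul]
      rw [hab, smul_smul, inv_mul_cancel₀ ht0, one_smul]
    have e31 : ∀ t : ℝ, π *ᵥ p₃.1 ≠ t • (π *ᵥ p₁.1) := h33 0
    have e32 : ∀ t : ℝ, π *ᵥ p₃.1 ≠ t • (π *ᵥ p₂.1) := h33 1
    have e21 : ∀ t : ℝ, π *ᵥ p₂.1 ≠ t • (π *ᵥ p₁.1) := h23 0
    fin_cases i <;> fin_cases j
    · exact hij rfl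
    · exact e21 _ (hlin _ _ _ h12 ht)
    · exact e31 _ (hlin _ _ _ h12 ht)
    · exact e21 _ ht
    · exact hij rfl
    · exact e32 _ (hlin _ _ _ h22 ht)
    · exact e31 _ ht
    · exact e32 _ ht
    · exact hij rfl

end Pool.Agent.Helper72.K3.rank1
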